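import Pool.Agent.R751.OctaC

/-!
# Affine surface-area domination does not imply the comparison of volumes (MP_8228af_gt)

The octahedron `C₂ = {|x| + |y| + |z| ≤ 12}` dominates the truncated octahedron
`C₁ = {|x| + |y| + |z| ≤ 13, |x|, |y|, |z| ≤ 8}` in affine surface area, but `Vol C₁ > Vol C₂`.

For an affine map `A` let `W₀, W₁, W₂` be the cross products of the images of the basis vectors
under its linear part. A facet with normal `(a,b,c)`, `a,b,c = ±1`, is stretched by a multiple of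
`|a W₀ + b W₁ + c W₂|`, a square facet by a multiple of `|W_i|`, and the surface area inequality
becomes `4 (|W₀| + |W₁| + |W₂|) ≤ ∑ |a W₀ + b W₁ + c W₂|` (sum over the eight sign vectors), which
is Hlawka's inequality.
-/

set_option autoImplicit false
open MeasureTheory Set

namespace Pool.Agent.Results.MP_8228af_gt.OctahedronDominates

open Pool.Agent.R751

/-- A convex body in `ℝⁿ`: a compact convex set with nonempty interior. -/
def IsConvexBody {n : ℕ} (C : Set (EuclideanSpace ℝ (Fin n))) : Prop :=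
  IsCompact C ∧ Convex ℝ C ∧ (interior C).Nonempty

/-- `C` is centrally symmetric: it is mapped to itself by the reflection in some point `x`. -/
def IsCentrallySymmetric {n : ℕ} (C : Set (EuclideanSpace ℝ (Fin n))) : Prop :=
  ∃ x : EuclideanSpace ℝ (Fin n), ∀ y ∈ C, (2 : ℝ) • x - y ∈ C

/-- The surface area: the `(n-1)`-dimensional Hausdorff measure of the boundary (Mathlib's
Hausdorff measure, a constant multiple of the Euclidean one). -/
noncomputable def surfaceArea {n : ℕ} (C : Set (EuclideanSpace ℝ (Fin n))) : ENNReal :=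
  Measure.hausdorffMeasure ((n : ℝ) - 1) (frontier C)

/-- `C₂` dominates `C₁` in affine surface area. -/
def Dominates {n : ℕ} (C₂ C₁ : Set (EuclideanSpace ℝ (Fin n))) : Prop :=
  ∀ A : EuclideanSpace ℝ (Fin n) ≃ᵃ[ℝ] EuclideanSpace ℝ (Fin n),
    surfaceArea (A '' C₁) ≤ surfaceArea (A '' C₂)

lemma convex_n1 (r : ℝ) : Convex ℝ {x : R3 | n1 x ≤ r} := by
  intro x hx y hy a b ha hb hab
  have hx' : |x 0| + |x 1| + |x 2| ≤ r := hx
  have hy' : |y 0| + |y 1| + |y 2| ≤ r := hy
  have key : ∀ i, |(a • x + b • y) i| ≤ a * |x i| + b * |y i| := by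
    intro i
    have h := abs_add_le (a * x i) (b * y i)
    rw [abs_mul, abs_mul, abs_of_nonneg ha, abs_of_nonneg hb] at h
    exact h
  change |(a • x + b • y) 0| + |(a • x + b • y) 1| + |(a • x + b • y) 2| ≤ r
  have h1 : a * (|x 0| + |x 1| + |x 2|) + b * (|y 0| + |y 1| + |y 2|) ≤ a * r + b * r :=
    add_le_add (mul_le_mul_of_nonneg_left hx' ha) (mul_le_mul_of_nonneg_left hy' hb)
  have h2 : a * r + b * r = r := by rw [← add_mul, hab, one_mul]
  linarith [key 0, key 1, key 2]

lemma convex_coord (i : Fin 3) (r : ℝ) : Convex ℝ {x : R3 | |x i| ≤ r} := by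
  intro x hx y hy a b ha hb hab
  have hx' : |x i| ≤ r := hx
  have hy' : |y i| ≤ r := hy
  change |(a • x + b • y) i| ≤ r
  have h := abs_add_le (a * x i) (b * y i)
  rw [abs_mul, abs_mul, abs_of_nonneg ha, abs_of_nonneg hb] at h
  have h3 : |(a • x + b • y) i| ≤ a * |x i| + b * |y i| := h
  have h1 := add_le_add (mul_le_mul_of_nonneg_left hx' ha) (mul_le_mul_of_nonneg_left hy' hb)
  have h2 : a * r + b * r = r := by rw [← add_mul, hab, one_mul]
  linarith

lemma body_L : IsConvexBody OctL := by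
  refine ⟨n1_compact 12, convex_n1 12, 0, ?_⟩
  have hop : IsOpen {x : R3 | n1 x < 12} := isOpen_lt n1_cont continuous_const
  exact mem_interior.2 ⟨_, fun x hx => (show n1 x < 12 from hx).le, hop,
    (show n1 (0 : R3) < 12 by simp [n1])⟩

lemma body_K : IsConvexBody OctK := by
  have hK : OctK = {x : R3 | n1 x ≤ 13} ∩ ({x | |x 0| ≤ 8} ∩ ({x | |x 1| ≤ 8} ∩ {x | |x 2| ≤ 8})) :=
    rfl
  refine ⟨?_, ?_, 0, ?_⟩
  · rw [hK]
    refine (n1_compact 13).inter_right ?_
    have h1 : IsClosed {x : R3 | |x 0| ≤ 8} := isClosed_le (by fun_prop) continuous_const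
    have h2 : IsClosed {x : R3 | |x 1| ≤ 8} := isClosed_le (by fun_prop) continuous_const
    have h3 : IsClosed {x : R3 | |x 2| ≤ 8} := isClosed_le (by fun_prop) continuous_const
    exact h1.inter (h2.inter h3)
  · rw [hK]
    exact (convex_n1 13).inter ((convex_coord 0 8).inter ((convex_coord 1 8).inter
      (convex_coord 2 8)))
  · have hop : IsOpen {x : R3 | n1 x < 8} := isOpen_lt n1_cont continuous_const
    refine mem_interior.2 ⟨_, fun x hx => ?_, hop, (show n1 (0 : R3) < 8 by simp [n1])⟩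
    have hx' : |x 0| + |x 1| + |x 2| < 8 := hx
    have a0 := abs_nonneg (x 0)
    have a1 := abs_nonneg (x 1)
    have a2 := abs_nonneg (x 2)
    exact ⟨show |x 0| + |x 1| + |x 2| ≤ 13 by linarith, by linarith, by linarith, by linarith⟩

lemma sym_L : IsCentrallySymmetric OctL := by
  refine ⟨0, fun y hy => ?_⟩
  have hy' : |y 0| + |y 1| + |y 2| ≤ 12 := hy
  rw [smul_zero, zero_sub]
  change |(-y) 0| + |(-y) 1| + |(-y) 2| ≤ 12
  simpa using hy'

lemma sym_K : IsCentrallySymmetric OctK := by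
  refine ⟨0, fun y hy => ?_⟩
  obtain ⟨h, h0, h1, h2⟩ := hy
  have hy' : |y 0| + |y 1| + |y 2| ≤ 13 := h
  rw [smul_zero, zero_sub]
  refine ⟨?_, ?_, ?_, ?_⟩
  · change |(-y) 0| + |(-y) 1| + |(-y) 2| ≤ 13
    simpa using hy'
  · simpa using h0
  · simpa using h1
  · simpa using h2

/-- the surface areas are finite -/
lemma finite_L (A : R3 ≃ᵃ[ℝ] R3) : Measure.hausdorffMeasure 2 (frontier (A '' OctL)) ≠ ⊤ := by
  rw [frontier_image]
  have hsub : frontier OctL ⊆ ⋃ s, face 12 (Tri 12) s := by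
    intro x hx
    have hcl : IsClosed OctL := isClosed_le n1_cont continuous_const
    have hxL : n1 x ≤ 12 := hcl.frontier_subset hx
    have h12 : n1 x = 12 := by
      refine le_antisymm hxL (not_lt.1 fun hc => hx.2 ?_)
      have hop : IsOpen {x : R3 | n1 x < 12} := isOpen_lt n1_cont continuous_const
      exact mem_interior.2 ⟨_, fun x hx => (show n1 x < 12 from hx).le, hop, hc⟩
    have h12' : |x 0| + |x 1| + |x 2| = 12 := h12
    obtain ⟨a, ha⟩ := exists_sg (x 0)
    obtain ⟨b, hb⟩ := exists_sg (x 1)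
    obtain ⟨c, hc⟩ := exists_sg (x 2)
    refine mem_iUnion.2 ⟨(a, b, c), face_mem (y := !₂[|x 1|, |x 2|]) ?_ ?_ ?_ ?_⟩
    · refine ⟨abs_nonneg _, abs_nonneg _, ?_⟩
      change |x 1| + |x 2| ≤ 12
      linarith [abs_nonneg (x 0)]
    · change x 0 = sg a * (12 - |x 1| - |x 2|)
      rw [show 12 - |x 1| - |x 2| = |x 0| by linarith]
      exact ha
    · exact hb
    · exact hc
  refine ne_top_of_le_ne_top ?_ (measure_mono (image_mono hsub))
  rw [image_iUnion]
  refine ne_top_of_le_ne_top ?_ (measure_iUnion_fintype_le _ _)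
  refine ENNReal.sum_ne_top.2 fun s _ => ?_
  rw [face, meas_piece A (li_face s.1 s.2.1 s.2.2)]
  exact ENNReal.mul_ne_top ENNReal.ofReal_ne_top (Tri_fin 12)

/-- There are `n ≥ 3` and centrally symmetric convex bodies `C₁, C₂ ⊂ ℝⁿ` such that `C₂` dominates
`C₁` in affine surface area (all surface areas being finite), but `Vol C₁ > Vol C₂`. -/
theorem result : ∃ n : ℕ, 3 ≤ n ∧ ∃ C₁ C₂ : Set (EuclideanSpace ℝ (Fin n)),
    IsConvexBody C₁ ∧ IsConvexBody C₂ ∧ IsCentrallySymmetric C₁ ∧ IsCentrallySymmetric C₂ ∧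
    Dominates C₂ C₁ ∧
    (∀ A : EuclideanSpace ℝ (Fin n) ≃ᵃ[ℝ] EuclideanSpace ℝ (Fin n),
      surfaceArea (A '' C₂) ≠ ⊤) ∧
    volume C₂ < volume C₁ := by
  have h2 : ((3 : ℕ) : ℝ) - 1 = 2 := by norm_num
  refine ⟨3, le_rfl, OctK, OctL, body_K, body_L, sym_K, sym_L, fun A => ?_, fun A => ?_, vol_ineq⟩
  · rw [surfaceArea, surfaceArea, h2]
    exact area_ineq A
  · rw [surfaceArea, h2]
    exact finite_L A

end Pool.Agent.Results.MP_8228af_gt.OctahedronDominates
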